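import Pool.Agent.Helper79.GR.NC

/-!
# PG block I, part 1: gradients of a gauge and integer directions which share no face

`Gau a b u`: `u` is sublinear with `a nr ≤ u ≤ b nr`, `a > 0`.  If `u` has the derivative `ρ` at
`w` then `ρ ≤ u`, `ρ w = u w`, `ρ` is the only linear functional below `u` which touches `u` at
`w`, and `ρ x = u x` whenever `w` and `x` share a face.  If `ρ i`, `i < N`, are derivatives of
`u` and no two of them touch `u` at a common `x ≠ 0`, then there are `N` nonzero integer vectors such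
that no `x ≠ 0` shares faces with two of them.
-/

set_option autoImplicit false

namespace Pool.Agent.Helper78.PG

open MeasureTheory Filter Topology
open Pool.Agent.Helper79.GR

/-- sublinear functions between `a nr` and `b nr`, `a > 0` -/
structure Gau {d : ℕ} (a b : ℝ) (u : (Fin d → ℝ) → ℝ) : Prop where
  apos : 0 < a
  add : ∀ x y, u (x + y) ≤ u x + u y
  smul : ∀ t : ℝ, 0 ≤ t → ∀ x, u (t • x) = t * u x
  lo : ∀ x, a * nr x ≤ u x
  hi : ∀ x, u x ≤ b * nr x

theorem gau_tc {d : ℕ} {a b : ℝ} {m : V d → ℝ} (h : SubM a b m) : Gau a b (tc m) :=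
  ⟨h.apos, tc_add_le h, tc_smul h, le_tc h, tc_le h⟩

section

variable {d : ℕ} {a b : ℝ} {u : (Fin d → ℝ) → ℝ}

theorem nr_pos {x : Fin d → ℝ} (hx : x ≠ 0) : 0 < nr x := by
  obtain ⟨i, hi⟩ := Function.ne_iff.1 hx
  unfold nr
  exact Finset.sum_pos' (fun _ _ => abs_nonneg _) ⟨i, Finset.mem_univ i, abs_pos.2 hi⟩

theorem nr_le_norm (x : Fin d → ℝ) : nr x ≤ d * ‖x‖ := by
  unfold nr
  calc ∑ i, |x i| ≤ ∑ _i : Fin d, ‖x‖ :=
        Finset.sum_le_sum fun i _ => by simpa [Real.norm_eq_abs] using norm_le_pi_norm x i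
    _ = d * ‖x‖ := by simp

theorem Gau.zero (h : Gau a b u) : u 0 = 0 := by
  have := h.smul 0 le_rfl 0
  simpa using this

theorem Gau.pos (h : Gau a b u) {x : Fin d → ℝ} (hx : x ≠ 0) : 0 < u x :=
  lt_of_lt_of_le (mul_pos h.apos (nr_pos hx)) (h.lo x)

theorem Gau.sub_le (h : Gau a b u) (x y : Fin d → ℝ) : u x - u y ≤ u (x - y) := by
  have := h.add (x - y) y
  rw [sub_add_cancel] at this
  linarith

theorem Gau.lip (h : Gau a b u) : LipschitzWith (Real.toNNReal (|b| * d)) u := by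
  refine LipschitzWith.of_dist_le_mul fun x y => ?_
  rw [Real.coe_toNNReal _ (by positivity), Real.dist_eq, dist_eq_norm]
  have h1 : ∀ x y : Fin d → ℝ, u x - u y ≤ |b| * d * ‖x - y‖ := by
    intro x y
    calc u x - u y ≤ u (x - y) := h.sub_le x y
      _ ≤ b * nr (x - y) := h.hi _
      _ ≤ |b| * nr (x - y) := mul_le_mul_of_nonneg_right (le_abs_self b)
          (Finset.sum_nonneg fun _ _ => abs_nonneg _)
      _ ≤ |b| * (d * ‖x - y‖) := mul_le_mul_of_nonneg_left (nr_le_norm _) (abs_nonneg b)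
      _ = |b| * d * ‖x - y‖ := by ring
  rw [abs_le]
  constructor
  · have := h1 y x
    rw [norm_sub_rev] at this
    linarith
  · exact h1 x y

theorem Gau.cont (h : Gau a b u) : Continuous u := h.lip.continuous

/-- a one-sided bound for a derivative -/
theorem deriv_le {g : ℝ → ℝ} {D c : ℝ} (hg : HasDerivAt g D 0)
    (h : ∀ t, 0 < t → t < 1 → g t ≤ g 0 + t * c) : D ≤ c := by
  have h1 := hasDerivAt_iff_tendsto_slope_zero.1 hg
  have h2 : Tendsto (fun t : ℝ => t⁻¹ • (g (0 + t) - g 0)) (𝓝[>] 0) (𝓝 D) :=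
    h1.mono_left (nhdsWithin_mono _ fun t ht => ne_of_gt ht)
  refine le_of_tendsto h2 ?_
  filter_upwards [Ioo_mem_nhdsGT (zero_lt_one : (0 : ℝ) < 1)] with t ht
  rw [zero_add, smul_eq_mul, inv_mul_le_iff₀ ht.1]
  have := h t ht.1 ht.2
  linarith

theorem le_deriv {g : ℝ → ℝ} {D c : ℝ} (hg : HasDerivAt g D 0)
    (h : ∀ t, 0 < t → t < 1 → g 0 + t * c ≤ g t) : c ≤ D := by
  have := deriv_le hg.neg (c := -c) (by
    intro t h0 h1
    have := h t h0 h1
    simp only [Pi.neg_apply]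
    linarith)
  linarith

theorem line_deriv {ρ : (Fin d → ℝ) →L[ℝ] ℝ} {w : Fin d → ℝ} (hρ : HasFDerivAt u ρ w)
    (x : Fin d → ℝ) : HasDerivAt (fun t : ℝ => u (w + t • x)) (ρ x) 0 :=
  hρ.hasLineDerivAt x

theorem grad_le (h : Gau a b u) {ρ : (Fin d → ℝ) →L[ℝ] ℝ} {w : Fin d → ℝ}
    (hρ : HasFDerivAt u ρ w) (x : Fin d → ℝ) : ρ x ≤ u x := by
  refine deriv_le (line_deriv hρ x) fun t h0 _ => ?_
  simp only [zero_smul, add_zero]
  have := h.add w (t • x)
  rw [h.smul t h0.le] at this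
  exact this

/-- sharing a face is invariant under scaling (first form) -/
theorem share_smul (h : Gau a b u) {w x : Fin d → ℝ} (hs : u x + u w ≤ u (x + w)) {t : ℝ}
    (h0 : 0 ≤ t) : u (t • x) + u w ≤ u (t • x + w) := by
  rcases le_or_gt t 1 with h1 | h1
  · have e : x + w = (t • x + w) + (1 - t) • x := by
      rw [sub_smul, one_smul]
      abel
    have h2 := h.add (t • x + w) ((1 - t) • x)
    rw [← e, h.smul (1 - t) (by linarith)] at h2
    rw [h.smul t h0]
    linarith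
  · have ht : 0 < t := by linarith
    have e : x + w = t⁻¹ • (t • x + w) + (1 - t⁻¹) • w := by
      rw [smul_add, smul_smul, inv_mul_cancel₀ ht.ne', one_smul, sub_smul, one_smul]
      abel
    have h2 := h.add (t⁻¹ • (t • x + w)) ((1 - t⁻¹) • w)
    rw [← e, h.smul (1 - t⁻¹) (by
      have := inv_le_one_of_one_le₀ h1.le
      linarith), h.smul t⁻¹ (by positivity)] at h2
    have h3 : u x + t⁻¹ * u w ≤ t⁻¹ * u (t • x + w) := by linarith
    have h4 := mul_le_mul_of_nonneg_left h3 h0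
    rw [mul_add, ← mul_assoc, ← mul_assoc, mul_inv_cancel₀ ht.ne', one_mul, one_mul] at h4
    rw [h.smul t h0]
    exact h4

theorem share_comm {w x : Fin d → ℝ} (hs : u x + u w ≤ u (x + w)) : u w + u x ≤ u (w + x) := by
  rw [add_comm w x, add_comm (u w)]
  exact hs

theorem grad_eq_of_share (h : Gau a b u) {ρ : (Fin d → ℝ) →L[ℝ] ℝ} {w : Fin d → ℝ}
    (hρ : HasFDerivAt u ρ w) {x : Fin d → ℝ} (hs : u x + u w ≤ u (x + w)) : ρ x = u x := by
  refine le_antisymm (grad_le h hρ x) (le_deriv (line_deriv hρ x) fun t h0 _ => ?_)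
  simp only [zero_smul, add_zero]
  have := share_smul h hs h0.le
  rw [h.smul t h0.le, add_comm (t • x) w] at this
  linarith

theorem grad_self (h : Gau a b u) {ρ : (Fin d → ℝ) →L[ℝ] ℝ} {w : Fin d → ℝ}
    (hρ : HasFDerivAt u ρ w) : ρ w = u w := by
  refine grad_eq_of_share h hρ ?_
  have e : w + w = (2 : ℝ) • w := by rw [two_smul]
  rw [e, h.smul 2 (by norm_num)]
  linarith

theorem grad_unique {ρ : (Fin d → ℝ) →L[ℝ] ℝ} {w : Fin d → ℝ}
    (hρ : HasFDerivAt u ρ w) {σ : (Fin d → ℝ) →L[ℝ] ℝ} (hσ : ∀ x, σ x ≤ u x)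
    (hσw : σ w = u w) : σ = ρ := by
  have key : ∀ x, σ x ≤ ρ x := by
    intro x
    refine le_deriv (line_deriv hρ x) fun t _ _ => ?_
    simp only [zero_smul, add_zero]
    have := hσ (w + t • x)
    rw [map_add, map_smul, smul_eq_mul, hσw] at this
    exact this
  ext1 x
  refine le_antisymm (key x) ?_
  have := key (-x)
  rw [map_neg, map_neg] at this
  linarith

/-- the differentiability points are dense -/
theorem dense_diff (h : Gau a b u) : Dense {w : Fin d → ℝ | DifferentiableAt ℝ u w} :=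
  MeasureTheory.Measure.dense_of_ae (h.lip.ae_differentiableAt (μ := volume))

/-- if finitely many functionals contain all gradients, they touch `u` everywhere -/
theorem touch_of_finite (h : Gau a b u) {S : Set ((Fin d → ℝ) →L[ℝ] ℝ)} (hS : S.Finite)
    (hG : ∀ w ρ, HasFDerivAt u ρ w → ρ ∈ S) (x : Fin d → ℝ) : ∃ ρ ∈ S, ρ x = u x := by
  have hcl : IsClosed {x : Fin d → ℝ | ∃ ρ ∈ S, ρ x = u x} := by
    have e : {x : Fin d → ℝ | ∃ ρ ∈ S, ρ x = u x} = ⋃ ρ ∈ S, {x | ρ x = u x} := by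
      ext y
      simp
    rw [e]
    exact hS.isClosed_biUnion fun ρ _ => isClosed_eq ρ.continuous h.cont
  have hd : Dense {x : Fin d → ℝ | ∃ ρ ∈ S, ρ x = u x} := by
    refine (dense_diff h).mono fun w hw => ?_
    exact ⟨fderiv ℝ u w, hG w _ hw.hasFDerivAt, grad_self h hw.hasFDerivAt⟩
  have := hcl.closure_eq
  rw [hd.closure_eq] at this
  have hx : x ∈ {x : Fin d → ℝ | ∃ ρ ∈ S, ρ x = u x} := this ▸ Set.mem_univ x
  exact hx

theorem tendsto_fl (w : Fin d → ℝ) :
    Tendsto (fun n : ℕ => (n : ℝ)⁻¹ • rv (fl n w)) atTop (𝓝 w) := by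
  rw [tendsto_pi_nhds]
  intro i
  have h1 : Tendsto (fun n : ℕ => w i - 1 / (n : ℝ)) atTop (𝓝 (w i)) := by
    have := tendsto_one_div_atTop_nhds_zero_nat (𝕜 := ℝ)
    simpa using (tendsto_const_nhds (x := w i)).sub this
  refine tendsto_of_tendsto_of_tendsto_of_le_of_le' h1 tendsto_const_nhds ?_ ?_
  · filter_upwards [eventually_gt_atTop 0] with n hn
    have hn' : (0 : ℝ) < n := by exact_mod_cast hn
    simp only [Pi.smul_apply, rv, fl, smul_eq_mul]
    have h2 := (Int.lt_floor_add_one ((n : ℝ) * w i)).le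
    rw [inv_mul_eq_div, le_div_iff₀ hn', sub_mul, one_div, inv_mul_cancel₀ hn'.ne']
    linarith
  · filter_upwards [eventually_gt_atTop 0] with n hn
    have hn' : (0 : ℝ) < n := by exact_mod_cast hn
    simp only [Pi.smul_apply, rv, fl, smul_eq_mul]
    have h2 := Int.floor_le ((n : ℝ) * w i)
    rw [inv_mul_eq_div, div_le_iff₀ hn']
    linarith

/-- from gradients no two of which touch `u` at a common point to integer directions -/
theorem dirs_of_grads (h : Gau a b u) {N : ℕ} (w : Fin N → Fin d → ℝ) (hw : ∀ i, w i ≠ 0)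
    (ρ : Fin N → ((Fin d → ℝ) →L[ℝ] ℝ)) (hρ : ∀ i, HasFDerivAt u (ρ i) (w i))
    (hna : ∀ i j, i ≠ j → ∀ x, x ≠ 0 → ¬ (ρ i x = u x ∧ ρ j x = u x)) :
    ∃ z : Fin N → V d, (∀ i, z i ≠ 0) ∧ ∀ i j, i ≠ j → ∀ x : Fin d → ℝ, x ≠ 0 →
      NoShare u (rv (z i)) x ∨ NoShare u (rv (z j)) x := by
  have hu := h.cont
  -- the property at `w`
  have h0 : ∀ i j, i ≠ j → ∀ x : Fin d → ℝ, x ≠ 0 →
      0 < max (u x + u (w i) - u (x + w i)) (u x + u (w j) - u (x + w j)) := by
    intro i j hij x hx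
    rw [lt_max_iff]
    by_contra hcon
    push Not at hcon
    exact hna i j hij x hx ⟨grad_eq_of_share h (hρ i) (by linarith [hcon.1]),
      grad_eq_of_share h (hρ j) (by linarith [hcon.2])⟩
  -- openness
  have h1 : ∀ i j, i ≠ j → ∀ᶠ v : Fin N → Fin d → ℝ in 𝓝 w,
      ∀ x ∈ Metric.sphere (0 : Fin d → ℝ) 1,
        0 < max (u x + u (v i) - u (x + v i)) (u x + u (v j) - u (x + v j)) := by
    intro i j hij
    refine (isCompact_sphere (0 : Fin d → ℝ) 1).eventually_forall_of_forall_eventually ?_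
    intro x hx
    have hx0 : x ≠ 0 := by
      intro hx0
      rw [hx0] at hx
      simp at hx
    have hc : Continuous fun z : (Fin N → Fin d → ℝ) × (Fin d → ℝ) =>
        max (u z.2 + u (z.1 i) - u (z.2 + z.1 i)) (u z.2 + u (z.1 j) - u (z.2 + z.1 j)) := by
      fun_prop
    exact hc.continuousAt.eventually (lt_mem_nhds (h0 i j hij x hx0))
  have h2 : ∀ᶠ v : Fin N → Fin d → ℝ in 𝓝 w, ∀ i, v i ≠ 0 := by
    rw [eventually_all]
    intro i
    exact (continuous_apply i).continuousAt.eventually (isOpen_ne.mem_nhds (hw i))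
  have h3 : ∀ᶠ v : Fin N → Fin d → ℝ in 𝓝 w, ∀ i j, i ≠ j →
      ∀ x ∈ Metric.sphere (0 : Fin d → ℝ) 1,
        0 < max (u x + u (v i) - u (x + v i)) (u x + u (v j) - u (x + v j)) := by
    rw [eventually_all]
    intro i
    rw [eventually_all]
    intro j
    by_cases hij : i = j
    · exact Eventually.of_forall fun v hne => absurd hij hne
    · exact (h1 i j hij).mono fun v hv _ => hv
  have h4 : Tendsto (fun n : ℕ => fun i => (n : ℝ)⁻¹ • rv (fl n (w i))) atTop (𝓝 w) :=
    tendsto_pi_nhds.2 fun i => tendsto_fl (w i)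
  obtain ⟨n, hn2, hn3, hn0⟩ := ((h4.eventually h2).and
    ((h4.eventually h3).and (eventually_gt_atTop 0))).exists
  have hn' : (0 : ℝ) < n := by exact_mod_cast hn0
  refine ⟨fun i => fl n (w i), fun i hi => hn2 i ?_, fun i j hij x hx => ?_⟩
  · have e : rv (fl n (w i)) = 0 := by
      have hi' : fl n (w i) = 0 := hi
      rw [hi']
      funext k
      simp [rv]
    simp only [e, smul_zero]
  · by_contra hcon
    rw [not_or] at hcon
    unfold NoShare at hcon
    rw [not_lt, not_lt] at hcon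
    have hxn : 0 < ‖x‖ := norm_pos_iff.2 hx
    have hs : (‖x‖⁻¹ • x) ∈ Metric.sphere (0 : Fin d → ℝ) 1 := by
      rw [mem_sphere_zero_iff_norm, norm_smul, norm_inv, norm_norm, inv_mul_cancel₀ hxn.ne']
    have key : ∀ z : V d, u x + u (rv z) ≤ u (x + rv z) →
        u (‖x‖⁻¹ • x) + u ((n : ℝ)⁻¹ • rv z) - u (‖x‖⁻¹ • x + (n : ℝ)⁻¹ • rv z) ≤ 0 := by
      intro z hz
      have e1 := share_smul h hz (inv_pos.2 hxn).le
      have e2 := share_comm (share_smul h (share_comm e1) (inv_pos.2 hn').le)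
      linarith
    have h5 := hn3 i j hij _ hs
    rw [lt_max_iff] at h5
    rcases h5 with h5 | h5
    · have := key _ hcon.1
      linarith
    · have := key _ hcon.2
      linarith

end

end Pool.Agent.Helper78.PG
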