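import Pool.Agent.Helper78.PG.Grad
import Pool.Agent.Helper79.GR.RN

/-!
# PG block I, part 2: the plane

Three distinct gradients of a gauge of the plane do not touch the gauge at a common point
(`three_at_point`), so a gradient touches the gauge at a common point with at most two other
gradients (`deg_le_two`).  If the gauge is not a maximum of finitely many linear functionals it has
infinitely many gradients, hence for every `N` there are `N` of them no two of which touch the gauge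
at a common point (`planar_link`), and Theorem A applies (`rays_of_not_polygon`).
-/

set_option autoImplicit false

namespace Pool.Agent.Helper78.PG

open MeasureTheory Filter Topology
open Pool.Agent.Helper79.GR

section

variable {a b : ℝ} {u : (Fin 2 → ℝ) → ℝ}

/-- coordinates of a functional -/
theorem lin2 (ρ : (Fin 2 → ℝ) →L[ℝ] ℝ) (x : Fin 2 → ℝ) :
    ρ x = ρ (Pi.single 0 1) * x 0 + ρ (Pi.single 1 1) * x 1 := by
  have e : x = x 0 • (Pi.single 0 1 : Fin 2 → ℝ) + x 1 • (Pi.single 1 1 : Fin 2 → ℝ) := by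
    funext i
    fin_cases i <;> simp
  conv_lhs => rw [e]
  rw [map_add, map_smul, map_smul, smul_eq_mul, smul_eq_mul]
  ring

/-- being a gradient -/
def IsG (u : (Fin 2 → ℝ) → ℝ) (ρ : (Fin 2 → ℝ) →L[ℝ] ℝ) : Prop := ∃ w, HasFDerivAt u ρ w

/-- two functionals touch `u` at a common point -/
def Adj (u : (Fin 2 → ℝ) → ℝ) (ρ σ : (Fin 2 → ℝ) →L[ℝ] ℝ) : Prop :=
  ∃ x, x ≠ 0 ∧ ρ x = u x ∧ σ x = u x

theorem middle (h : Gau a b u) {ρ σ τ : (Fin 2 → ℝ) →L[ℝ] ℝ} (hρ : IsG u ρ)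
    (hσ : IsG u σ) (hτ : IsG u τ) {p : Fin 2 → ℝ} (hp : p ≠ 0) (h1 : ρ p = u p)
    (h2 : σ p = u p) (h3 : τ p = u p)
    (h4 : ρ ![-p 1, p 0] < σ ![-p 1, p 0]) (h5 : σ ![-p 1, p 0] < τ ![-p 1, p 0]) : False := by
  obtain ⟨w, hw⟩ := hσ
  obtain ⟨w1, hw1⟩ := hρ
  obtain ⟨w2, hw2⟩ := hτ
  set q : Fin 2 → ℝ := ![-p 1, p 0] with hq
  have hp2 : 0 < p 0 ^ 2 + p 1 ^ 2 := by
    obtain ⟨i, hi⟩ := Function.ne_iff.1 hp
    fin_cases i
    · have : 0 < p 0 ^ 2 := by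
        have : p 0 ≠ 0 := hi
        positivity
      positivity
    · have : 0 < p 1 ^ 2 := by
        have : p 1 ≠ 0 := hi
        positivity
      positivity
  -- the value of a functional at `w` from those at `p` and `q`
  have key : ∀ ψ : (Fin 2 → ℝ) →L[ℝ] ℝ, (p 0 ^ 2 + p 1 ^ 2) * ψ w =
      (w 0 * p 0 + w 1 * p 1) * ψ p + (-w 0 * p 1 + w 1 * p 0) * ψ q := by
    intro ψ
    rw [lin2 ψ w, lin2 ψ p, lin2 ψ q]
    simp only [hq, Matrix.cons_val_zero, Matrix.cons_val_one, Matrix.cons_val_fin_one]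
    ring
  have e1 : (τ q - ρ q) * σ w = (τ q - σ q) * ρ w + (σ q - ρ q) * τ w := by
    have k1 := key ρ
    have k2 := key σ
    have k3 := key τ
    rw [h1] at k1
    rw [h2] at k2
    rw [h3] at k3
    have : (p 0 ^ 2 + p 1 ^ 2) * ((τ q - ρ q) * σ w) =
        (p 0 ^ 2 + p 1 ^ 2) * ((τ q - σ q) * ρ w + (σ q - ρ q) * τ w) := by
      linear_combination (τ q - ρ q) * k2 - (τ q - σ q) * k1 - (σ q - ρ q) * k3
    exact mul_left_cancel₀ hp2.ne' this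
  have e2 : σ w = u w := grad_self h hw
  have e3 : ρ w ≤ u w := grad_le h hw1 w
  have e4 : τ w ≤ u w := grad_le h hw2 w
  have e5 : ρ w = u w := by
    refine le_antisymm e3 ?_
    rw [e2] at e1
    by_contra hlt
    rw [not_le] at hlt
    nlinarith
  have e6 := grad_unique hw (grad_le h hw1) e5
  rw [e6] at h4
  exact lt_irrefl _ h4

/-- a functional is determined by its values at `p` and at the rotated vector -/
theorem ext_at {ρ σ : (Fin 2 → ℝ) →L[ℝ] ℝ} {p : Fin 2 → ℝ} (hp : p ≠ 0) (h1 : ρ p = σ p)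
    (h2 : ρ ![-p 1, p 0] = σ ![-p 1, p 0]) : ρ = σ := by
  have hp2 : 0 < p 0 ^ 2 + p 1 ^ 2 := by
    obtain ⟨i, hi⟩ := Function.ne_iff.1 hp
    fin_cases i
    · have : 0 < p 0 ^ 2 := by
        have : p 0 ≠ 0 := hi
        positivity
      positivity
    · have : 0 < p 1 ^ 2 := by
        have : p 1 ≠ 0 := hi
        positivity
      positivity
  ext1 w
  have key : ∀ ψ : (Fin 2 → ℝ) →L[ℝ] ℝ, (p 0 ^ 2 + p 1 ^ 2) * ψ w =
      (w 0 * p 0 + w 1 * p 1) * ψ p + (-w 0 * p 1 + w 1 * p 0) * ψ ![-p 1, p 0] := by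
    intro ψ
    rw [lin2 ψ w, lin2 ψ p, lin2 ψ ![-p 1, p 0]]
    simp only [Matrix.cons_val_zero, Matrix.cons_val_one, Matrix.cons_val_fin_one]
    ring
  have k1 := key ρ
  rw [h1, h2, ← key σ] at k1
  exact mul_left_cancel₀ hp2.ne' k1

theorem three_at_point (h : Gau a b u) {ρ σ τ : (Fin 2 → ℝ) →L[ℝ] ℝ} (hρ : IsG u ρ)
    (hσ : IsG u σ) (hτ : IsG u τ) (d1 : ρ ≠ σ) (d2 : ρ ≠ τ) (d3 : σ ≠ τ) {p : Fin 2 → ℝ}
    (hp : p ≠ 0) (h1 : ρ p = u p) (h2 : σ p = u p) (h3 : τ p = u p) : False := by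
  have n1 : ρ ![-p 1, p 0] ≠ σ ![-p 1, p 0] := fun e => d1 (ext_at hp (h1.trans h2.symm) e)
  have n2 : ρ ![-p 1, p 0] ≠ τ ![-p 1, p 0] := fun e => d2 (ext_at hp (h1.trans h3.symm) e)
  have n3 : σ ![-p 1, p 0] ≠ τ ![-p 1, p 0] := fun e => d3 (ext_at hp (h2.trans h3.symm) e)
  rcases lt_or_gt_of_ne n1 with l1 | l1 <;> rcases lt_or_gt_of_ne n2 with l2 | l2 <;>
    rcases lt_or_gt_of_ne n3 with l3 | l3
  · exact middle h hρ hσ hτ hp h1 h2 h3 l1 l3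
  · exact middle h hρ hτ hσ hp h1 h3 h2 l2 l3
  · exact absurd (l1.trans l3) (not_lt.2 l2.le)
  · exact middle h hτ hρ hσ hp h3 h1 h2 l2 l1
  · exact middle h hσ hρ hτ hp h2 h1 h3 l1 l2
  · exact absurd (l3.trans l1) (not_lt.2 l2.le)
  · exact middle h hσ hτ hρ hp h2 h3 h1 l3 l2
  · exact middle h hτ hσ hρ hp h3 h2 h1 l3 l1

/-- two neighbours on the same side of the gradient point are reached at the same point -/
theorem same_side (h : Gau a b u) {ρ σ : (Fin 2 → ℝ) →L[ℝ] ℝ} {w : Fin 2 → ℝ}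
    (hw1 : u w = 1) (hρw : ρ w = 1)
    (hun : ∀ τ : (Fin 2 → ℝ) →L[ℝ] ℝ, (∀ x, τ x ≤ u x) → τ w = 1 → τ = ρ)
    (hσ : IsG u σ) (d1 : ρ ≠ σ)
    {x y : Fin 2 → ℝ} (hx1 : u x = 1) (hy1 : u y = 1)
    (hx : ρ x = u x) (hσx : σ x = u x) (hy : ρ y = u y)
    {D : ℝ} (hD : D = w 0 * x 1 - w 1 * x 0) {D' : ℝ} (hD' : D' = w 0 * y 1 - w 1 * y 0)
    {s : ℝ} (hs0 : 0 < s) (hs1 : s ≤ 1) (hs : D = s * D') : x = y := by
  obtain ⟨v, hv⟩ := hσ
  rw [hx1] at hx hσx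
  rw [hy1] at hy
  -- `x = (1 - s) w + s y`
  have e : ∀ i, x i = (1 - s) * w i + s * y i := by
    have l1 := lin2 ρ w
    have l2 := lin2 ρ x
    have l3 := lin2 ρ y
    rw [hρw] at l1
    rw [hx] at l2
    rw [hy] at l3
    set r0 := ρ (Pi.single 0 1)
    set r1 := ρ (Pi.single 1 1)
    subst hD hD'
    intro i
    have a0 : r0 * (x 0 - (1 - s) * w 0 - s * y 0) + r1 * (x 1 - (1 - s) * w 1 - s * y 1) = 0 := by
      linear_combination -l2 + (1 - s) * l1 + s * l3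
    have a1 : w 0 * (x 1 - (1 - s) * w 1 - s * y 1) - w 1 * (x 0 - (1 - s) * w 0 - s * y 0) = 0 := by
      linear_combination hs
    fin_cases i
    · show x 0 = (1 - s) * w 0 + s * y 0
      linear_combination (x 0 - (1 - s) * w 0 - s * y 0) * l1 + w 0 * a0 - r1 * a1
    · show x 1 = (1 - s) * w 1 + s * y 1
      linear_combination (x 1 - (1 - s) * w 1 - s * y 1) * l1 + w 1 * a0 + r0 * a1
  have hσw : σ w < 1 := by
    refine lt_of_le_of_ne ((grad_le h hv w).trans hw1.le) fun hc => ?_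
    exact d1 (hun σ (grad_le h hv) hc).symm
  have hσy : σ y ≤ 1 := (grad_le h hv y).trans hy1.le
  have e2 : σ x = (1 - s) * σ w + s * σ y := by
    rw [lin2 σ x, lin2 σ w, lin2 σ y, e 0, e 1]
    ring
  have hs' : s = 1 := by
    by_contra hne
    have : s < 1 := lt_of_le_of_ne hs1 hne
    nlinarith
  funext i
  rw [e i, hs']
  ring

theorem neighbours (h : Gau a b u) {ρ σ τ : (Fin 2 → ℝ) →L[ℝ] ℝ} {w : Fin 2 → ℝ}
    (hρ : IsG u ρ) (hw1 : u w = 1) (hρw : ρ w = 1)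
    (hun : ∀ τ : (Fin 2 → ℝ) →L[ℝ] ℝ, (∀ x, τ x ≤ u x) → τ w = 1 → τ = ρ)
    (hσ : IsG u σ) (hτ : IsG u τ) (d1 : ρ ≠ σ)
    (d2 : ρ ≠ τ) (d3 : σ ≠ τ) {x y : Fin 2 → ℝ} (hx1 : u x = 1) (hy1 : u y = 1)
    (hx : ρ x = u x) (hσx : σ x = u x) (hy : ρ y = u y) (hτy : τ y = u y)
    (hpos : 0 < (w 0 * x 1 - w 1 * x 0) * (w 0 * y 1 - w 1 * y 0)) : False := by
  have hx0 : x ≠ 0 := by
    intro h0
    rw [h0, h.zero] at hx1
    exact zero_ne_one hx1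
  have hxy : x = y := by
    set D := w 0 * x 1 - w 1 * x 0 with hD
    set D' := w 0 * y 1 - w 1 * y 0 with hD'
    have hD0 : D ≠ 0 := by
      intro h0
      rw [h0, zero_mul] at hpos
      exact lt_irrefl _ hpos
    have hD0' : D' ≠ 0 := by
      intro h0
      rw [h0, mul_zero] at hpos
      exact lt_irrefl _ hpos
    rcases le_total |D| |D'| with hle | hle
    · refine same_side h hw1 hρw hun hσ d1 hx1 hy1 hx hσx hy hD hD' (s := D / D') ?_ ?_ ?_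
      · rw [div_eq_mul_inv]
        have : D * D'⁻¹ = (D * D') * (D' ^ 2)⁻¹ := by
          field_simp
        rw [this]
        positivity
      · refine (le_abs_self _).trans ?_
        rw [abs_div]
        exact div_le_one_of_le₀ hle (abs_nonneg _)
      · field_simp
    · refine (same_side h hw1 hρw hun hτ d2 hy1 hx1 hy hτy hx hD' hD (s := D' / D) ?_ ?_ ?_).symm
      · rw [div_eq_mul_inv]
        have : D' * D⁻¹ = (D * D') * (D ^ 2)⁻¹ := by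
          field_simp
        rw [this]
        positivity
      · refine (le_abs_self _).trans ?_
        rw [abs_div]
        exact div_le_one_of_le₀ hle (abs_nonneg _)
      · field_simp
  subst hxy
  exact three_at_point h hρ hσ hτ d1 d2 d3 hx0 hx hσx hτy

theorem adj_norm (h : Gau a b u) {ρ σ : (Fin 2 → ℝ) →L[ℝ] ℝ} (ha : Adj u ρ σ) :
    ∃ x, u x = 1 ∧ ρ x = u x ∧ σ x = u x := by
  obtain ⟨x, hx0, h1, h2⟩ := ha
  have hp := h.pos hx0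
  have e : u ((u x)⁻¹ • x) = 1 := by
    rw [h.smul _ (inv_pos.2 hp).le, inv_mul_cancel₀ hp.ne']
  refine ⟨(u x)⁻¹ • x, e, ?_, ?_⟩
  · rw [e, map_smul, h1, smul_eq_mul, inv_mul_cancel₀ hp.ne']
  · rw [e, map_smul, h2, smul_eq_mul, inv_mul_cancel₀ hp.ne']

theorem grad_ne_zero (h : Gau a b u) {ρ : (Fin 2 → ℝ) →L[ℝ] ℝ} {w : Fin 2 → ℝ}
    (hw : HasFDerivAt u ρ w) : w ≠ 0 := by
  intro h0
  subst h0
  have key : ∀ x, ρ x = u x := fun x => grad_eq_of_share h hw (by rw [h.zero, add_zero, add_zero])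
  have hx : (Pi.single 0 1 : Fin 2 → ℝ) ≠ 0 := by
    intro hc
    have := congrFun hc 0
    simp at this
  have h1 := h.pos hx
  have h2 := h.pos (neg_ne_zero.2 hx)
  rw [← key] at h1 h2
  rw [map_neg] at h2
  linarith

theorem deg_le_two (h : Gau a b u) {ρ σ₁ σ₂ σ₃ : (Fin 2 → ℝ) →L[ℝ] ℝ} (hρ : IsG u ρ)
    (g1 : IsG u σ₁) (g2 : IsG u σ₂) (g3 : IsG u σ₃) (n1 : ρ ≠ σ₁) (n2 : ρ ≠ σ₂) (n3 : ρ ≠ σ₃)
    (n12 : σ₁ ≠ σ₂) (n13 : σ₁ ≠ σ₃) (n23 : σ₂ ≠ σ₃) (a1 : Adj u ρ σ₁) (a2 : Adj u ρ σ₂)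
    (a3 : Adj u ρ σ₃) : False := by
  obtain ⟨w', hw'⟩ := id hρ
  have hw0 := grad_ne_zero h hw'
  have hp := h.pos hw0
  obtain ⟨w, hwd⟩ : ∃ w, w = (u w')⁻¹ • w' := ⟨_, rfl⟩
  have hw1 : u w = 1 := by
    rw [hwd, h.smul _ (inv_pos.2 hp).le, inv_mul_cancel₀ hp.ne']
  have hρw : ρ w = 1 := by
    rw [hwd, map_smul, grad_self h hw', smul_eq_mul, inv_mul_cancel₀ hp.ne']
  have hun : ∀ τ : (Fin 2 → ℝ) →L[ℝ] ℝ, (∀ x, τ x ≤ u x) → τ w = 1 → τ = ρ := by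
    intro τ hτ hτw
    refine grad_unique hw' hτ ?_
    rw [hwd, map_smul, smul_eq_mul, inv_mul_eq_div, div_eq_iff hp.ne', one_mul] at hτw
    exact hτw
  obtain ⟨x, hx1, hx2, hx3⟩ := adj_norm h a1
  obtain ⟨y, hy1, hy2, hy3⟩ := adj_norm h a2
  obtain ⟨z, hz1, hz2, hz3⟩ := adj_norm h a3
  -- the determinants do not vanish
  have hne : ∀ (σ : (Fin 2 → ℝ) →L[ℝ] ℝ) (x : Fin 2 → ℝ), IsG u σ → ρ ≠ σ → u x = 1 →
      ρ x = u x → σ x = u x → w 0 * x 1 - w 1 * x 0 ≠ 0 := by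
    intro σ x hσ hne hx1 hx2 hx3 h0
    have e : ∀ i, x i = w i := by
      have l1 := lin2 ρ w
      have l2 := lin2 ρ x
      rw [hρw] at l1
      rw [hx2, hx1] at l2
      set r0 := ρ (Pi.single 0 1)
      set r1 := ρ (Pi.single 1 1)
      intro i
      have a0 : r0 * (x 0 - w 0) + r1 * (x 1 - w 1) = 0 := by
        linear_combination -l2 + l1
      have a1 : w 0 * (x 1 - w 1) - w 1 * (x 0 - w 0) = 0 := by
        linear_combination h0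
      fin_cases i
      · show x 0 = w 0
        linear_combination (x 0 - w 0) * l1 + w 0 * a0 - r1 * a1
      · show x 1 = w 1
        linear_combination (x 1 - w 1) * l1 + w 1 * a0 + r0 * a1
    have e' : x = w := funext e
    subst e'
    obtain ⟨v, hv⟩ := hσ
    exact hne (hun σ (grad_le h hv) (hx3.trans hx1)).symm
  have d1 := hne σ₁ x g1 n1 hx1 hx2 hx3
  have d2 := hne σ₂ y g2 n2 hy1 hy2 hy3
  have d3 := hne σ₃ z g3 n3 hz1 hz2 hz3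
  rcases lt_or_gt_of_ne d1 with s1 | s1 <;> rcases lt_or_gt_of_ne d2 with s2 | s2 <;>
    rcases lt_or_gt_of_ne d3 with s3 | s3
  · exact neighbours h hρ hw1 hρw hun g1 g2 n1 n2 n12 hx1 hy1 hx2 hx3 hy2 hy3
      (mul_pos_of_neg_of_neg s1 s2)
  · exact neighbours h hρ hw1 hρw hun g1 g2 n1 n2 n12 hx1 hy1 hx2 hx3 hy2 hy3
      (mul_pos_of_neg_of_neg s1 s2)
  · exact neighbours h hρ hw1 hρw hun g1 g3 n1 n3 n13 hx1 hz1 hx2 hx3 hz2 hz3
      (mul_pos_of_neg_of_neg s1 s3)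
  · exact neighbours h hρ hw1 hρw hun g2 g3 n2 n3 n23 hy1 hz1 hy2 hy3 hz2 hz3
      (mul_pos s2 s3)
  · exact neighbours h hρ hw1 hρw hun g2 g3 n2 n3 n23 hy1 hz1 hy2 hy3 hz2 hz3
      (mul_pos_of_neg_of_neg s2 s3)
  · exact neighbours h hρ hw1 hρw hun g1 g3 n1 n3 n13 hx1 hz1 hx2 hx3 hz2 hz3
      (mul_pos s1 s3)
  · exact neighbours h hρ hw1 hρw hun g1 g2 n1 n2 n12 hx1 hy1 hx2 hx3 hy2 hy3
      (mul_pos s1 s2)
  · exact neighbours h hρ hw1 hρw hun g1 g2 n1 n2 n12 hx1 hy1 hx2 hx3 hy2 hy3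
      (mul_pos s1 s2)

theorem adj_symm {ρ σ : (Fin 2 → ℝ) →L[ℝ] ℝ} (ha : Adj u ρ σ) : Adj u σ ρ := by
  obtain ⟨x, h0, h1, h2⟩ := ha
  exact ⟨x, h0, h2, h1⟩

theorem finite_neighbours (h : Gau a b u) {ρ : (Fin 2 → ℝ) →L[ℝ] ℝ} (hρ : IsG u ρ) :
    {σ | IsG u σ ∧ ρ ≠ σ ∧ Adj u ρ σ}.Finite := by
  classical
  by_contra hinf
  obtain ⟨t, ht, hc⟩ := (Set.not_finite.1 hinf).exists_subset_card_eq 3
  obtain ⟨x, y, z, hxy, hxz, hyz, rfl⟩ := Finset.card_eq_three.1 hc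
  have hx := ht (by simp : x ∈ ((({x, y, z} : Finset _)) : Set _))
  have hy := ht (by simp : y ∈ ((({x, y, z} : Finset _)) : Set _))
  have hz := ht (by simp : z ∈ ((({x, y, z} : Finset _)) : Set _))
  exact deg_le_two h hρ hx.1 hy.1 hz.1 hx.2.1 hy.2.1 hz.2.1 hxy hxz hyz hx.2.2 hy.2.2 hz.2.2

/-- the gauge is a maximum of finitely many linear functionals -/
def Polygon (u : (Fin 2 → ℝ) → ℝ) : Prop :=
  ∃ S : Finset ((Fin 2 → ℝ) →ₗ[ℝ] ℝ), ∀ x, (∀ r ∈ S, r x ≤ u x) ∧ ∃ r ∈ S, r x = u x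

theorem infinite_grads (h : Gau a b u) (hnp : ¬ Polygon u) : {ρ | IsG u ρ}.Infinite := by
  classical
  intro hfin
  refine hnp ⟨hfin.toFinset.image fun ρ : (Fin 2 → ℝ) →L[ℝ] ℝ =>
    (ρ : (Fin 2 → ℝ) →ₗ[ℝ] ℝ), fun x => ⟨?_, ?_⟩⟩
  · intro r hr
    rw [Finset.mem_image] at hr
    obtain ⟨ρ, hρ, rfl⟩ := hr
    rw [Set.Finite.mem_toFinset] at hρ
    obtain ⟨w, hw⟩ := hρ
    exact grad_le h hw x
  · obtain ⟨ρ, hρ, e⟩ := touch_of_finite h hfin (fun w ρ hw => ⟨w, hw⟩) x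
    exact ⟨ρ, Finset.mem_image.2 ⟨ρ, (Set.Finite.mem_toFinset hfin).2 hρ, rfl⟩, e⟩

theorem planar_link (h : Gau a b u) (hnp : ¬ Polygon u) (N : ℕ) :
    ∃ z : Fin N → V 2, (∀ i, z i ≠ 0) ∧ ∀ i j, i ≠ j → ∀ x : Fin 2 → ℝ, x ≠ 0 →
      NoShare u (rv (z i)) x ∨ NoShare u (rv (z j)) x := by
  classical
  have hsymm : Std.Symm (fun ρ σ : (Fin 2 → ℝ) →L[ℝ] ℝ => ρ ≠ σ ∧ ¬ Adj u ρ σ) :=
    ⟨fun ρ σ hh => ⟨hh.1.symm, fun hc => hh.2 (adj_symm hc)⟩⟩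
  obtain ⟨f, hf, hp⟩ := exists_seq_of_forall_finset_exists' (IsG u)
    (fun ρ σ : (Fin 2 → ℝ) →L[ℝ] ℝ => ρ ≠ σ ∧ ¬ Adj u ρ σ) (by
      intro s hs
      have h1 : ((s : Set ((Fin 2 → ℝ) →L[ℝ] ℝ)) ∪
          ⋃ ρ ∈ s, {σ | IsG u σ ∧ ρ ≠ σ ∧ Adj u ρ σ}).Finite :=
        s.finite_toSet.union (s.finite_toSet.biUnion fun ρ hρ => finite_neighbours h (hs ρ hρ))
      obtain ⟨σ, hσ, hσ'⟩ := (infinite_grads h hnp).exists_notMem_finite h1
      refine ⟨σ, hσ, fun ρ hρ => ?_⟩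
      have hne : ρ ≠ σ := by
        rintro rfl
        exact hσ' (Or.inl hρ)
      refine ⟨hne, fun hc => hσ' (Or.inr ?_)⟩
      simp only [Set.mem_iUnion]
      exact ⟨ρ, hρ, hσ, hne, hc⟩)
  choose w hw using hf
  exact dirs_of_grads h (fun i : Fin N => w i) (fun i => grad_ne_zero h (hw i)) (fun i => f i)
    (fun i => hw i) fun i j hij x hx hc =>
      (hp (fun e => hij (Fin.ext e))).2 ⟨x, hx, hc.1, hc.2⟩

end

/-- not a polygon: almost surely infinitely many geodesic rays -/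
theorem rays_of_not_polygon {Ω : Type*} [MeasurableSpace Ω] {P : Measure Ω}
    {X : Edge 2 → Ω → ℝ} {ν : Measure ℝ} {a b : ℝ} (h : Env P X ν a b)
    (hnp : ¬ Polygon (tc (mm P X))) :
    ∀ᵐ ω ∂P, ∀ N : ℕ, ∃ s : Fin N → ℕ → St 2, Function.Injective s ∧ ∀ i, Ray (cf X ω) (s i) := by
  rw [ae_all_iff]
  intro N
  obtain ⟨z, hz, hz'⟩ := planar_link (gau_tc (subM_mm h)) hnp N
  exact theorem_A h z hz hz'

end Pool.Agent.Helper78.PG
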